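import Pool.Agent.R751.MB.Stm

/-!
# KM/RAY: the exponential distribution

Author: helper697 (project KM of helper483).
-/

set_option autoImplicit false

namespace Pool.Agent.N697.KM

open MeasureTheory Set Filter Topology
open scoped ENNReal InnerProductSpace
open Pool.Agent.R751.MB (Eu EW VW Adm AP)

/-- the embedding of the line -/
noncomputable def io (t : ℝ) : Eu (Fin 1) := WithLp.toLp 2 fun _ => t

theorem io_apply (t : ℝ) (i : Fin 1) : io t i = t := rfl

theorem io_eq (x : Eu (Fin 1)) : io (x 0) = x := by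
  ext i
  show x 0 = x i
  rw [Subsingleton.elim i 0]

/-- the weight -/
noncomputable def wr (x : Eu (Fin 1)) : ℝ := if 0 ≤ x 0 then Real.exp (-x 0) else 0

theorem mp : MeasurePreserving (fun x : Eu (Fin 1) => x 0) volume volume := by
  have h1 := (volume_preserving_funUnique (Fin 1) ℝ).comp (PiLp.volume_preserving_ofLp (Fin 1))
  exact h1

theorem me : MeasurableEmbedding (fun x : Eu (Fin 1) => x 0) := by
  have h1 := (MeasurableEquiv.funUnique (Fin 1) ℝ).measurableEmbedding.comp
    (MeasurableEquiv.toLp 2 (Fin 1 → ℝ)).symm.measurableEmbedding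
  exact h1

theorem int_eq (F : Eu (Fin 1) → ℝ) : ∫ x, F x = ∫ t : ℝ, F (io t) := by
  have h1 := mp.integral_comp me (fun t => F (io t))
  rw [← h1]
  refine integral_congr_ae (Filter.Eventually.of_forall fun x => ?_)
  simp only [io_eq]

theorem int_w (v : Eu (Fin 1) → ℝ) :
    ∫ x, v x * wr x = ∫ t in Ioi (0 : ℝ), v (io t) * Real.exp (-t) := by
  rw [int_eq, ← integral_Ici_eq_integral_Ioi, ← integral_indicator measurableSet_Ici]
  refine integral_congr_ae (Filter.Eventually.of_forall fun t => ?_)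
  by_cases h : 0 ≤ t
  · rw [Set.indicator_of_mem (by exact h)]
    have h2 : wr (io t) = Real.exp (-t) := if_pos h
    simp only [h2]
  · rw [Set.indicator_of_notMem (by exact h)]
    have h2 : wr (io t) = 0 := if_neg h
    simp only [h2, mul_zero]

theorem int_w1 : ∫ x, wr x = 1 := by
  have h := int_w (fun _ => 1)
  simp only [one_mul] at h
  rw [h, integral_exp_neg_Ioi_zero]

theorem EW_eq (v : Eu (Fin 1) → ℝ) :
    EW wr v = ∫ t in Ioi (0 : ℝ), v (io t) * Real.exp (-t) := by
  unfold EW
  rw [int_w1, div_one, int_w]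

theorem gam (n : ℕ) : IntegrableOn (fun t : ℝ => t ^ n * Real.exp (-t)) (Ioi 0) ∧
    ∫ t in Ioi (0 : ℝ), t ^ n * Real.exp (-t) = n.factorial := by
  have h1 : ∀ t : ℝ, t ^ n * Real.exp (-t) = Real.exp (-t) * t ^ (((n : ℝ) + 1) - 1) := by
    intro t
    rw [add_sub_cancel_right, Real.rpow_natCast, mul_comm]
  constructor
  · simp only [h1]
    exact Real.GammaIntegral_convergent (by positivity)
  · simp only [h1]
    rw [← Real.Gamma_eq_integral (by positivity), Real.Gamma_nat_eq_factorial]

theorem adm : Adm wr := by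
  refine ⟨?_, ?_, ?_, ?_⟩
  · intro x
    unfold wr
    split_ifs
    · exact (Real.exp_pos _).le
    · exact le_rfl
  · have h1 : IntegrableOn (fun t : ℝ => t ^ 0 * Real.exp (-t) + t ^ 2 * Real.exp (-t)) (Ioi 0) :=
      (gam 0).1.add (gam 2).1
    have h2 : Integrable (fun t : ℝ => (Ici (0 : ℝ)).indicator
        (fun t : ℝ => t ^ 0 * Real.exp (-t) + t ^ 2 * Real.exp (-t)) t) := by
      rw [integrable_indicator_iff measurableSet_Ici, integrableOn_Ici_iff_integrableOn_Ioi]
      exact h1
    have h3 := (mp.integrable_comp_emb me).2 h2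
    refine h3.congr (Filter.Eventually.of_forall fun x => ?_)
    have hx : ‖x‖ ^ 2 = x 0 ^ 2 := by
      rw [EuclideanSpace.norm_sq_eq]
      simp
    simp only [Function.comp_apply]
    by_cases h : 0 ≤ x 0
    · rw [Set.indicator_of_mem (by exact h), wr, if_pos h, hx]
      ring
    · rw [Set.indicator_of_notMem (by exact h), wr, if_neg h, mul_zero]
  · rw [int_w1]
    exact one_pos
  · unfold wr
    refine Measurable.ite ?_ ?_ measurable_const
    · exact measurableSet_le measurable_const (mp.measurable)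
    · exact (mp.measurable.neg).exp

theorem poin {g g' : ℝ → ℝ} (hg : ∀ t, HasDerivAt g (g' t) t) (hc : Continuous g') {B L : ℝ}
    (hB : ∀ t, |g t| ≤ B) (hL : ∀ t, |g' t| ≤ L) :
    (∫ t in Ioi (0 : ℝ), g t ^ 2 * Real.exp (-t)) - (∫ t in Ioi (0 : ℝ), g t * Real.exp (-t)) ^ 2 ≤
      4 * ∫ t in Ioi (0 : ℝ), g' t ^ 2 * Real.exp (-t) := by
  have hgc : Continuous g := continuous_iff_continuousAt.2 fun t => (hg t).continuousAt
  have hexp : IntegrableOn (fun t : ℝ => Real.exp (-t)) (Ioi 0) := by
    have := (gam 0).1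
    simpa using this
  -- bounded continuous functions are integrable
  have hint : ∀ (u : ℝ → ℝ) (C : ℝ), Continuous u → (∀ t, |u t| ≤ C) →
      IntegrableOn (fun t => u t * Real.exp (-t)) (Ioi 0) := by
    intro u C hu hC
    refine Integrable.bdd_mul (c := C) hexp hu.aestronglyMeasurable ?_
    exact Filter.Eventually.of_forall fun t => by rw [Real.norm_eq_abs]; exact hC t
  set c := g 0 with hcdef
  set X := ∫ t in Ioi (0 : ℝ), (g t - c) ^ 2 * Real.exp (-t) with hX
  set Y := ∫ t in Ioi (0 : ℝ), g' t ^ 2 * Real.exp (-t) with hY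
  have hB0 : 0 ≤ B := (abs_nonneg _).trans (hB 0)
  have hL0 : 0 ≤ L := (abs_nonneg _).trans (hL 0)
  have hgcB : ∀ t, |g t - c| ≤ 2 * B := by
    intro t
    refine (abs_sub _ _).trans ?_
    linarith [hB t, hB 0]
  have i1 : IntegrableOn (fun t => (g t - c) ^ 2 * Real.exp (-t)) (Ioi 0) := by
    refine hint (fun t => (g t - c) ^ 2) ((2 * B) ^ 2) (by fun_prop) fun t => ?_
    rw [abs_pow]
    exact pow_le_pow_left₀ (abs_nonneg _) (hgcB t) 2
  have i2 : IntegrableOn (fun t => ((g t - c) * g' t) * Real.exp (-t)) (Ioi 0) := by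
    refine hint (fun t => (g t - c) * g' t) (2 * B * L) (by fun_prop) fun t => ?_
    rw [abs_mul]
    exact mul_le_mul (hgcB t) (hL t) (abs_nonneg _) (by positivity)
  have i3 : IntegrableOn (fun t => g' t ^ 2 * Real.exp (-t)) (Ioi 0) := by
    refine hint (fun t => g' t ^ 2) (L ^ 2) (by fun_prop) fun t => ?_
    rw [abs_pow]
    exact pow_le_pow_left₀ (abs_nonneg _) (hL t) 2
  have i4 : IntegrableOn (fun t => g t ^ 2 * Real.exp (-t)) (Ioi 0) := by
    refine hint (fun t => g t ^ 2) (B ^ 2) (by fun_prop) fun t => ?_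
    rw [abs_pow]
    exact pow_le_pow_left₀ (abs_nonneg _) (hB t) 2
  have i5 : IntegrableOn (fun t => g t * Real.exp (-t)) (Ioi 0) := hint g B hgc hB
  -- integration by parts
  have hparts : ∫ t in Ioi (0 : ℝ), ((g t - c) ^ 2 * Real.exp (-t) -
      2 * (((g t - c) * g' t) * Real.exp (-t))) = 0 := by
    have hd : ∀ t ∈ Ici (0 : ℝ), HasDerivAt (fun t => -((g t - c) ^ 2 * Real.exp (-t)))
        ((g t - c) ^ 2 * Real.exp (-t) - 2 * (((g t - c) * g' t) * Real.exp (-t))) t := by
      intro t _
      have e1 : HasDerivAt (fun t => (g t - c) ^ 2) (2 * (g t - c) * g' t) t := by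
        have := ((hg t).sub_const c).pow 2
        exact this.congr_deriv (by simp)
      have e2 : HasDerivAt (fun t : ℝ => Real.exp (-t)) (-Real.exp (-t)) t := by
        have := (hasDerivAt_neg t).exp
        simpa using this
      refine ((e1.mul e2).neg).congr_deriv ?_
      ring
    have hlim : Tendsto (fun t => -((g t - c) ^ 2 * Real.exp (-t))) atTop (𝓝 0) := by
      rw [← neg_zero]
      refine Tendsto.neg ?_
      refine squeeze_zero_norm (a := fun t => (2 * B) ^ 2 * Real.exp (-t)) ?_ ?_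
      · intro t
        rw [Real.norm_eq_abs, abs_mul, abs_of_pos (Real.exp_pos _), abs_pow]
        exact mul_le_mul_of_nonneg_right (pow_le_pow_left₀ (abs_nonneg _) (hgcB t) 2)
          (Real.exp_pos _).le
      · have := (Real.tendsto_exp_neg_atTop_nhds_zero).const_mul ((2 * B) ^ 2)
        simpa using this
    have := integral_Ioi_of_hasDerivAt_of_tendsto' hd (i1.sub (i2.const_mul 2)) hlim
    rw [this]
    simp [hcdef]
  rw [integral_sub i1 (i2.const_mul 2), integral_const_mul, sub_eq_zero] at hparts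
  have hle : ∫ t in Ioi (0 : ℝ), ((g t - c) * g' t) * Real.exp (-t) ≤ X / 4 + Y := by
    have e1 : X / 4 + Y = ∫ t in Ioi (0 : ℝ), (1 / 4 * ((g t - c) ^ 2 * Real.exp (-t)) +
        g' t ^ 2 * Real.exp (-t)) := by
      rw [integral_add (i1.const_mul _) i3, integral_const_mul]
      ring
    rw [e1]
    refine setIntegral_mono_on i2 ((i1.const_mul _).add i3) measurableSet_Ioi fun t _ => ?_
    have h1 := Real.exp_pos (-t)
    have h2 : (g t - c) * g' t ≤ 1 / 4 * (g t - c) ^ 2 + g' t ^ 2 := by
      nlinarith [sq_nonneg ((g t - c) / 2 - g' t)]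
    nlinarith
  have hXY : X ≤ 4 * Y := by linarith
  -- the variance
  set m := ∫ t in Ioi (0 : ℝ), g t * Real.exp (-t) with hm
  have hXe : X = (∫ t in Ioi (0 : ℝ), g t ^ 2 * Real.exp (-t)) - 2 * c * m + c ^ 2 := by
    have e1 : X = ∫ t in Ioi (0 : ℝ), ((g t ^ 2 * Real.exp (-t) - 2 * c * (g t * Real.exp (-t))) +
        c ^ 2 * Real.exp (-t)) := by
      rw [hX]
      refine integral_congr_ae (Filter.Eventually.of_forall fun t => ?_)
      simp only
      ring
    have i6 : IntegrableOn (fun t => g t ^ 2 * Real.exp (-t) - 2 * c * (g t * Real.exp (-t)))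
        (Ioi 0) := i4.sub (i5.const_mul (2 * c))
    have i7 : IntegrableOn (fun t => c ^ 2 * Real.exp (-t)) (Ioi 0) := hexp.const_mul _
    have e2 : ∫ t in Ioi (0 : ℝ), ((g t ^ 2 * Real.exp (-t) - 2 * c * (g t * Real.exp (-t))) +
        c ^ 2 * Real.exp (-t)) =
        (∫ t in Ioi (0 : ℝ), (g t ^ 2 * Real.exp (-t) - 2 * c * (g t * Real.exp (-t)))) +
        ∫ t in Ioi (0 : ℝ), c ^ 2 * Real.exp (-t) := integral_add i6 i7
    have e3 : ∫ t in Ioi (0 : ℝ), (g t ^ 2 * Real.exp (-t) - 2 * c * (g t * Real.exp (-t))) =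
        (∫ t in Ioi (0 : ℝ), g t ^ 2 * Real.exp (-t)) -
        ∫ t in Ioi (0 : ℝ), 2 * c * (g t * Real.exp (-t)) :=
      integral_sub i4 (i5.const_mul (2 * c))
    rw [e1, e2, e3, integral_const_mul, integral_const_mul, integral_exp_neg_Ioi_zero]
    ring
  nlinarith [sq_nonneg (m - c)]

theorem ray : ∃ A : ℝ, 0 < A ∧
    AP A (fun x : Eu (Fin 1) => if 0 ≤ x 0 then Real.exp (-x 0) else 0) := by
  refine ⟨4, by norm_num, ?_⟩
  show AP 4 wr
  refine ⟨adm, ContinuousLinearEquiv.refl ℝ _, ?_, ?_⟩
  · intro θ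
    have hin : ∀ t : ℝ, ⟪io t, θ⟫_ℝ = t * θ 0 := by
      intro t
      rw [PiLp.inner_apply, Fin.sum_univ_one]
      simp [io_apply, mul_comm]
    have hθ : ‖θ‖ ^ 2 = θ 0 ^ 2 := by
      rw [EuclideanSpace.norm_sq_eq]
      simp
    simp only [ContinuousLinearEquiv.refl_apply]
    unfold VW
    rw [EW_eq, EW_eq, hθ]
    simp only [hin]
    have e1 : ∫ t in Ioi (0 : ℝ), (t * θ 0) ^ 2 * Real.exp (-t) = θ 0 ^ 2 * 2 := by
      have h := (gam 2).2
      have h2 : (Nat.factorial 2 : ℝ) = 2 := by norm_num [Nat.factorial]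
      rw [h2] at h
      rw [← h, ← integral_const_mul]
      refine integral_congr_ae (Filter.Eventually.of_forall fun t => ?_)
      simp only
      ring
    have e2 : ∫ t in Ioi (0 : ℝ), (t * θ 0) * Real.exp (-t) = θ 0 * 1 := by
      have h := (gam 1).2
      have h2 : (Nat.factorial 1 : ℝ) = 1 := by norm_num [Nat.factorial]
      rw [h2] at h
      rw [← h, ← integral_const_mul]
      refine integral_congr_ae (Filter.Eventually.of_forall fun t => ?_)
      simp only
      ring
    rw [e1, e2]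
    ring
  · intro f hf ⟨B, hB⟩ ⟨L, hL⟩
    simp only [ContinuousLinearEquiv.refl_apply]
    unfold VW
    rw [EW_eq, EW_eq, EW_eq]
    -- the derivative on the line
    have hio : ∀ t : ℝ, HasDerivAt io (io 1) t := by
      intro t
      have h1 : ∀ s : ℝ, io s = s • io 1 := by
        intro s
        ext i
        simp [io_apply]
      have h2 : io = fun s : ℝ => s • io 1 := funext h1
      rw [h2]
      have h3 := (hasDerivAt_id t).smul_const (io 1)
      simpa using h3
    have hn1 : ‖io 1‖ = 1 := by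
      rw [EuclideanSpace.norm_eq]
      simp [io_apply]
    have hfd : ∀ x, HasFDerivAt f (fderiv ℝ f x) x :=
      fun x => (hf.differentiable one_ne_zero x).hasFDerivAt
    have hg : ∀ t, HasDerivAt (fun t => f (io t)) (fderiv ℝ f (io t) (io 1)) t :=
      fun t => (hfd (io t)).comp_hasDerivAt t (hio t)
    have hioc : Continuous io := continuous_iff_continuousAt.2 fun t => (hio t).continuousAt
    have hfc : Continuous (fun x => fderiv ℝ f x) := hf.continuous_fderiv one_ne_zero
    have hg'c : Continuous (fun t => fderiv ℝ f (io t) (io 1)) :=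
      (hfc.comp hioc).clm_apply continuous_const
    have hle : ∀ t, |fderiv ℝ f (io t) (io 1)| ≤ ‖fderiv ℝ f (io t)‖ := by
      intro t
      have := (fderiv ℝ f (io t)).le_opNorm (io 1)
      rw [hn1, mul_one, Real.norm_eq_abs] at this
      exact this
    have h := poin hg hg'c (fun t => hB (io t)) (fun t => (hle t).trans (hL (io t)))
    refine h.trans (mul_le_mul_of_nonneg_left ?_ (by norm_num))
    have hexp : IntegrableOn (fun t : ℝ => Real.exp (-t)) (Ioi 0) := by
      have := (gam 0).1
      simpa using this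
    have hL0 : 0 ≤ L := (norm_nonneg _).trans (hL 0)
    have hint : ∀ (u : ℝ → ℝ) (C : ℝ), Continuous u → (∀ t, |u t| ≤ C) →
        IntegrableOn (fun t => u t * Real.exp (-t)) (Ioi 0) := by
      intro u C hu hC
      refine Integrable.bdd_mul (c := C) hexp hu.aestronglyMeasurable ?_
      exact Filter.Eventually.of_forall fun t => by rw [Real.norm_eq_abs]; exact hC t
    refine setIntegral_mono_on ?_ ?_ measurableSet_Ioi fun t _ => ?_
    · refine hint (fun t => fderiv ℝ f (io t) (io 1) ^ 2) (L ^ 2) (by fun_prop) fun t => ?_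
      rw [abs_pow]
      exact pow_le_pow_left₀ (abs_nonneg _) ((hle t).trans (hL (io t))) 2
    · refine hint (fun t => ‖fderiv ℝ f (io t)‖ ^ 2) (L ^ 2)
        (((hfc.comp hioc).norm).pow 2) fun t => ?_
      rw [abs_pow, abs_norm]
      exact pow_le_pow_left₀ (norm_nonneg _) (hL (io t)) 2
    · refine mul_le_mul_of_nonneg_right ?_ (Real.exp_pos _).le
      rw [← sq_abs]
      exact pow_le_pow_left₀ (abs_nonneg _) (hle t) 2

end Pool.Agent.N697.KM
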