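import Pool.Agent.N483.KM.StmS
import Pool.Agent.N697.KM.Ray0

/-!
# KM/RAY: the exponential distribution

Author: helper697 (project KM of helper483).
-/

set_option autoImplicit false

namespace Pool.Agent.N697.KM

theorem t_RAY : Pool.Agent.N483.KM.S_RAY := ray

end Pool.Agent.N697.KM
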