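import Pool.Agent.N697.KM.W2

/-!
# KM/BWC: from the weight to the bodies (helper697)
-/

set_option autoImplicit false

namespace Pool.Agent.N697.KM

open MeasureTheory Set Filter Topology
open scoped ENNReal InnerProductSpace
open Pool.Agent.R754.KG (E un sl Rv)
open Pool.Agent.Y506.PV (CcW ind LCn)
open Pool.Agent.Y506.RG (EW VW Adm)
open Pool.Agent.N483.KM

theorem cc_mono {n : ℕ} {κ κ' δ δ' : ℝ} {w : E n → ℝ} (hκ : κ' ≤ κ) (hδ : δ ≤ δ')
    (h : CcW κ δ w) : CcW κ' δ' w := by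
  intro k hk T s hs hvar v hv hv1 hvl
  exact (h k hk T s hs hvar v hv hv1 fun y => (hvl y).trans
    (div_le_div_of_nonneg_right hκ (Real.sqrt_nonneg s))).trans hδ

theorem gM_meas {n : ℕ} {w : E n → ℝ} (hw : Measurable w) (M : ℕ) : Measurable (gM w M) := by
  unfold gM
  exact Measurable.ite (measurableSet_lt measurable_const hw)
    ((((Real.measurable_log.comp hw).div_const _).const_add 1).max measurable_const)
    measurable_const

/-- W6: from the weight to the bodies -/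
theorem t_BWC (h1 : S_REV) (h2 : S_PRW) (h3 : S_CUBE) (h4 : S_BWG) (h5 : S_WMC) : S_BWC := by
  intro δ hδ
  refine ⟨δ / 4, by positivity, fun κ' hκ' => ?_⟩
  obtain ⟨κ1, hκ1, hcube⟩ := h3 (δ / 4) (by positivity)
  obtain ⟨κ, hκ⟩ : ∃ κ : ℝ, κ = min (κ' / 2) κ1 / 2 := ⟨_, rfl⟩
  have hκ0 : 0 < κ := by
    rw [hκ]
    have : 0 < min (κ' / 2) κ1 := lt_min (by positivity) hκ1
    positivity
  refine ⟨κ, hκ0, fun n w hw hcc => ?_⟩
  obtain ⟨hadm, -, hlim, hint, hlim2⟩ := h5 n w hw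
  have hrev := h1 n κ' (δ / 4) (δ / 4) w (fun M x => gM w M x ^ M) hκ' (by positivity) hw.adm hadm
    hlim hcc
  obtain ⟨c, hc⟩ : ∃ c : ℝ, c = 64 * κ / δ := ⟨_, rfl⟩
  have hc0 : 0 < c := by rw [hc]; positivity
  obtain ⟨η, hη⟩ : ∃ η : ℝ, η = min (1 / 4) (δ / (16 * κ * c)) := ⟨_, rfl⟩
  have hη0 : 0 < η := by rw [hη]; exact lt_min (by norm_num) (by positivity)
  have hη4 : η ≤ 1 / 4 := by rw [hη]; exact min_le_left _ _
  have hηc : η ≤ δ / (16 * κ * c) := by rw [hη]; exact min_le_right _ _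
  have hZ : 0 < ∫ x, w x := hw.adm.pos
  have e1 : ∀ᶠ M : ℕ in atTop, (M : ℝ) * ∫ x, (gM w M x - 1) ^ 2 * gM w M x ^ M <
      η * (∫ x, w x) / (2 * (n + 1)) := hlim2.eventually_lt_const (by positivity)
  have e2 : ∀ᶠ M : ℕ in atTop, ∫ x, (1 + ‖x‖ ^ 2) * |gM w M x ^ M - w x| < (∫ x, w x) / 2 :=
    hlim.eventually_lt_const (by positivity)
  filter_upwards [hadm, hrev, h4 n w hw, hint, e1, e2, eventually_ge_atTop 1] with
    M a1 a2 a3 a4 a5 a6 a7 m e
  have hmass : (∫ x, w x) / 2 ≤ ∫ x, gM w M x ^ M := by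
    have i1 : Integrable fun x => (1 + ‖x‖ ^ 2) * |gM w M x ^ M - w x| := by
      refine (a1.int.sub hw.adm.int).abs.congr (Eventually.of_forall fun x => ?_)
      simp only [Pi.sub_apply]
      rw [← mul_sub, abs_mul, abs_of_nonneg (by positivity : (0 : ℝ) ≤ 1 + ‖x‖ ^ 2)]
    have i2 : (∫ x, w x) - ∫ x, gM w M x ^ M ≤ ∫ x, (1 + ‖x‖ ^ 2) * |gM w M x ^ M - w x| := by
      rw [← integral_sub hw.adm.one a1.one]
      refine integral_mono (hw.adm.one.sub a1.one) i1 fun x => ?_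
      simp only
      have h6 : w x - gM w M x ^ M ≤ |gM w M x ^ M - w x| := by
        rw [abs_sub_comm]
        exact le_abs_self _
      nlinarith [abs_nonneg (gM w M x ^ M - w x), sq_nonneg ‖x‖,
        mul_nonneg (sq_nonneg ‖x‖) (abs_nonneg (gM w M x ^ M - w x))]
    linarith
  have hM1 : (1 : ℝ) ≤ M := by exact_mod_cast a7
  have hn0 : (0 : ℝ) ≤ n := Nat.cast_nonneg n
  have hG : ((n + M : ℕ) : ℝ) * EW (fun x => gM w M x ^ M) (fun x => (gM w M x - 1) ^ 2) ≤ η := by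
    unfold EW
    rw [← mul_div_assoc, div_le_iff₀ a1.pos]
    have hI : 0 ≤ ∫ x, (gM w M x - 1) ^ 2 * gM w M x ^ M :=
      integral_nonneg fun x => mul_nonneg (sq_nonneg _) (a1.nonneg x)
    have h6 : ((n + M : ℕ) : ℝ) ≤ (n + 1) * M := by
      push_cast
      nlinarith [mul_nonneg hn0 (sub_nonneg.2 hM1)]
    calc ((n + M : ℕ) : ℝ) * ∫ x, (gM w M x - 1) ^ 2 * gM w M x ^ M
        ≤ ((n + 1) * M) * ∫ x, (gM w M x - 1) ^ 2 * gM w M x ^ M :=
          mul_le_mul_of_nonneg_right h6 hI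
      _ = (n + 1) * (M * ∫ x, (gM w M x - 1) ^ 2 * gM w M x ^ M) := by ring
      _ ≤ (n + 1) * (η * (∫ x, w x) / (2 * (n + 1))) :=
          mul_le_mul_of_nonneg_left a5.le (by positivity)
      _ = η * ((∫ x, w x) / 2) := by
          field_simp
      _ ≤ η * ∫ x, gM w M x ^ M := mul_le_mul_of_nonneg_left hmass hη0.le
  have hκκ : 2 * κ = min (κ' / 2) κ1 := by rw [hκ]; ring
  have hP := h2 (2 * κ) (δ / 4 + δ / 4) (δ / 4) n M m e (fun x => gM w M x ^ M) (ind (qb M))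
    (by positivity) (by positivity) a1 (qb_adm M)
    (cc_mono (by rw [hκκ]; exact min_le_left _ _) le_rfl a2)
    (cc_mono (by rw [hκκ]; exact min_le_right _ _) le_rfl (hcube M))
  have key := step (gM w M) (gM_meas hw.adm.meas M) a1 (BW w M) a3.1.comp.isClosed.measurableSet
    a3.2 a4 e hκ0 hP hc0 hG hη4 (by omega)
  refine cc_mono le_rfl ?_ key
  have f1 : 2 * κ * (c * η) ≤ δ / 8 := by
    calc 2 * κ * (c * η) = (2 * κ * c) * η := by ring
      _ ≤ (2 * κ * c) * (δ / (16 * κ * c)) := mul_le_mul_of_nonneg_left hηc (by positivity)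
      _ = δ / 8 := by field_simp; ring
  have f2 : 2 * κ * (4 / c) = δ / 8 := by
    rw [hc]
    field_simp
    ring
  have f3 : 2 * κ * (c * η + 4 / c) = 2 * κ * (c * η) + 2 * κ * (4 / c) := by ring
  rw [f3, f2]
  linarith

end Pool.Agent.N697.KM
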