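import Pool.Agent.N483.KM.StmX
import Pool.Agent.R755.KF.Defs3
import Pool.Agent.Y506.PV.Img
import Pool.Agent.Y279.PV.Den
import Pool.Agent.Y252.PV.M4
import Pool.Agent.Y625.PV.LevUm
import Pool.Agent.Y941.PV.Prj
import Pool.Agent.Y388.PV.Lin

/-!
# KM/WIL: projections of weights, in both directions (helper697)
-/

set_option autoImplicit false

namespace Pool.Agent.N697.KM

open MeasureTheory Set Filter Topology
open scoped ENNReal InnerProductSpace
open Pool.Agent.R754.KG (E un sl Rv)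
open Pool.Agent.R755.KF (CB)
open Pool.Agent.Y506.PV (CcW ind LCn)
open Pool.Agent.Y506.RG (EW VW Adm)
open Pool.Agent.N483.KM

theorem den' : Pool.Agent.Y506.PV.S_DEN :=
  Pool.Agent.Y279.PV.den (Pool.Agent.Y252.PV.M4.m4 Pool.Agent.Y625.PV.lev) Pool.Agent.Y625.PV.um

theorem ccw_mono {n : ℕ} {κ κ' δ δ' : ℝ} {w : E n → ℝ} (hκ : κ' ≤ κ) (hδ : δ ≤ δ')
    (h : CcW κ δ w) : CcW κ' δ' w := by
  intro k hk T s hs hvar v hv hv1 hvl
  exact (h k hk T s hs hvar v hv hv1 fun y => (hvl y).trans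
    (div_le_div_of_nonneg_right hκ (Real.sqrt_nonneg s))).trans hδ

/-! ### the bodies -/

theorem gM_mono {n m : ℕ} {w : E n → ℝ} {u : E m → ℝ} {x : E n} {y : E m} (M : ℕ)
    (h0 : 0 < w x) (h : w x ≤ u y) : gM w M x ≤ gM u M y := by
  unfold gM
  rw [if_pos h0, if_pos (h0.trans_le h)]
  refine max_le_max ?_ le_rfl
  have h1 := Real.log_le_log h0 h
  have h2 : Real.log (w x) / M ≤ Real.log (u y) / M :=
    div_le_div_of_nonneg_right h1 (Nat.cast_nonneg M)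
  linarith

/-- the image of the body over the weight is the body over the image of the weight -/
theorem BW_image {n m : ℕ} (T : E n →ₗ[ℝ] E m) {w : E n → ℝ} {u : E m → ℝ}
    (h : ∀ c : ℝ, 0 < c → {x | c ≤ u x} = T '' {x | c ≤ w x}) (M : ℕ) :
    (LinearMap.prodMap T (LinearMap.id : E M →ₗ[ℝ] E M)) '' BW w M = BW u M := by
  ext z
  constructor
  · rintro ⟨y, ⟨hy1, hy2⟩, rfl⟩
    have hy0 : 0 < w y.1 := (Real.exp_pos _).trans_le hy1
    have h1 : w y.1 ≤ u (T y.1) := by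
      have h2 : T y.1 ∈ T '' {x | w y.1 ≤ w x} := ⟨y.1, le_refl (w y.1), rfl⟩
      rw [← h _ hy0] at h2
      exact h2
    refine ⟨hy1.trans h1, fun i => ?_⟩
    have h3 := gM_mono M hy0 h1
    have h4 := hy2 i
    have h5 : gM w M y.1 / 2 ≤ gM u M (T y.1) / 2 := by linarith
    exact h4.trans h5
  · rintro ⟨hz1, hz2⟩
    have hz0 : 0 < u z.1 := (Real.exp_pos _).trans_le hz1
    have h1 : z.1 ∈ T '' {x | u z.1 ≤ w x} := by
      rw [← h _ hz0]
      exact le_refl (u z.1)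
    obtain ⟨x, hx, hxz⟩ := h1
    refine ⟨(x, z.2), ⟨hz1.trans hx, fun i => ?_⟩, ?_⟩
    · have h3 := gM_mono (w := u) (u := w) M hz0 hx
      have h4 := hz2 i
      have h5 : gM u M z.1 / 2 ≤ gM w M x / 2 := by linarith
      exact h4.trans h5
    · exact Prod.ext hxz rfl

/-- bodies have interior points -/
theorem cb_int {n M : ℕ} {K : Set (E n × E M)} (h : CB K) : (interior K).Nonempty := by
  have hv0 : (volume : Measure (E n × E M)).IsAddHaarMeasure :=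
    inferInstanceAs (Measure.prod (volume : Measure (E n)) (volume : Measure (E M))).IsAddHaarMeasure
  by_contra hcon
  rw [not_nonempty_iff_eq_empty] at hcon
  have h1 := h.conv.addHaar_frontier (volume : Measure (E n × E M))
  have h2 : K ⊆ frontier K := by
    intro x hx
    rw [frontier, hcon, sdiff_empty]
    exact subset_closure hx
  exact h.pos.ne' (measure_mono_null h2 h1)

theorem img_props {n M p : ℕ} {K : Set (E n × E M)} (h : CB K) (e : (E n × E M) ≃ₗ[ℝ] E p) :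
    IsCompact (e '' K) ∧ Convex ℝ (e '' K) ∧ (interior (e '' K)).Nonempty := by
  have hec : Continuous e := e.toLinearMap.continuous_of_finiteDimensional
  refine ⟨h.comp.image hec, h.conv.linear_image e.toLinearMap, ?_⟩
  have h1 := (e.toContinuousLinearEquiv.toHomeomorph).image_interior K
  obtain ⟨x, hx⟩ := cb_int h
  have h2 : e.toContinuousLinearEquiv.toHomeomorph x ∈
    e.toContinuousLinearEquiv.toHomeomorph '' interior K := ⟨x, hx, rfl⟩
  rw [h1] at h2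
  exact ⟨_, h2⟩

/-- coordinates of the product of two spaces -/
theorem exists_coord' (n M p : ℕ) (h : n + M = p) : Nonempty ((E n × E M) ≃ₗ[ℝ] E p) := by
  refine ⟨LinearEquiv.ofFinrankEq _ _ ?_⟩
  rw [Module.finrank_prod, finrank_euclideanSpace_fin, finrank_euclideanSpace_fin,
    finrank_euclideanSpace_fin, h]

/-- the projection in coordinates -/
theorem proj_coord {n m M p q : ℕ} (T : E n →ₗ[ℝ] E m) (hT : Function.Surjective T)
    {w : E n → ℝ} {u : E m → ℝ} (h : ∀ c : ℝ, 0 < c → {x | c ≤ u x} = T '' {x | c ≤ w x})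
    (e1 : (E n × E M) ≃ₗ[ℝ] E p) (e2 : (E m × E M) ≃ₗ[ℝ] E q) :
    ∃ A : E p →ₗ[ℝ] E q, Function.Surjective A ∧ A '' (e1 '' BW w M) = e2 '' BW u M := by
  refine ⟨e2.toLinearMap ∘ₗ (LinearMap.prodMap T (LinearMap.id : E M →ₗ[ℝ] E M)) ∘ₗ
    e1.symm.toLinearMap, ?_, ?_⟩
  · intro y
    obtain ⟨x, hx⟩ := hT (e2.symm y).1
    refine ⟨e1 (x, (e2.symm y).2), ?_⟩
    simp only [LinearMap.coe_comp, LinearEquiv.coe_coe, Function.comp_apply,
      LinearEquiv.symm_apply_apply, LinearMap.prodMap_apply, LinearMap.id_coe, id_eq, hx,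
      Prod.mk.eta, LinearEquiv.apply_symm_apply]
  · rw [← BW_image T h M, image_image, image_image]
    refine image_congr fun z _ => ?_
    simp only [LinearMap.coe_comp, LinearEquiv.coe_coe, Function.comp_apply,
      LinearEquiv.symm_apply_apply]

/-! ### finitely many codimensions -/

theorem img_all (j : ℕ) (δ : ℝ) (hδ : 0 < δ) : ∃ δ0 c : ℝ, 0 < δ0 ∧ 0 < c ∧
    ∀ i, i ≤ j → ∀ (n : ℕ) (κ : ℝ) (K : Set (E (n + i))) (A : E (n + i) →ₗ[ℝ] E n),
    0 < κ → IsCompact K → Convex ℝ K → (interior K).Nonempty → Function.Surjective A →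
    CcW κ δ0 (ind K) → CcW (c * κ) δ (ind (A '' K)) := by
  have key := fun r => Pool.Agent.Y506.PV.cc_img Pool.Agent.Y941.PV.prj den'
    Pool.Agent.Y388.PV.cmp Pool.Agent.Y388.PV.fac r δ hδ
  induction j with
  | zero =>
    obtain ⟨δ0, c, h1, h2, h3⟩ := key 0
    refine ⟨δ0, c, h1, h2, fun i hi => ?_⟩
    obtain rfl : i = 0 := by omega
    exact h3
  | succ j ih =>
    obtain ⟨δ0, c, h1, h2, h3⟩ := ih
    obtain ⟨δ1, c1, g1, g2, g3⟩ := key (j + 1)
    refine ⟨min δ0 δ1, min c c1, lt_min h1 g1, lt_min h2 g2, fun i hi n κ K A hκ a1 a2 a3 a4 a5 => ?_⟩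
    rcases Nat.lt_or_ge i (j + 1) with hi' | hi'
    · exact ccw_mono (mul_le_mul_of_nonneg_right (min_le_left _ _) hκ.le) le_rfl
        (h3 i (Nat.lt_succ_iff.1 hi') n κ K A hκ a1 a2 a3 a4 (ccw_mono le_rfl (min_le_left _ _) a5))
    · obtain rfl : i = j + 1 := le_antisymm hi hi'
      exact ccw_mono (mul_le_mul_of_nonneg_right (min_le_right _ _) hκ.le) le_rfl
        (g3 n κ K A hκ a1 a2 a3 a4 (ccw_mono le_rfl (min_le_right _ _) a5))

theorem lift_all (hL : Pool.Agent.R755.KF.S_LIFT) (j : ℕ) (δ : ℝ) (hδ : 0 < δ) :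
    ∃ δ0 : ℝ, 0 < δ0 ∧ ∀ κ : ℝ, 0 < κ → ∃ κ' : ℝ, 0 < κ' ∧
    ∀ i, i ≤ j → ∀ (n : ℕ) (K : Set (E (n + i))) (A : E (n + i) →ₗ[ℝ] E n),
    Function.Surjective A → IsCompact K → Convex ℝ K → (interior K).Nonempty →
    CcW κ δ0 (ind (A '' K)) → CcW κ' δ (ind K) := by
  induction j with
  | zero =>
    obtain ⟨δ0, h1, h2⟩ := hL 0 δ hδ
    refine ⟨δ0, h1, fun κ hκ => ?_⟩
    obtain ⟨κ', h3, h4⟩ := h2 κ hκ
    refine ⟨κ', h3, fun i hi => ?_⟩
    obtain rfl : i = 0 := by omega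
    exact h4
  | succ j ih =>
    obtain ⟨δ0, h1, h2⟩ := ih
    obtain ⟨δ1, g1, g2⟩ := hL (j + 1) δ hδ
    refine ⟨min δ0 δ1, lt_min h1 g1, fun κ hκ => ?_⟩
    obtain ⟨κ0, h3, h4⟩ := h2 κ hκ
    obtain ⟨κ1, g3, g4⟩ := g2 κ hκ
    refine ⟨min κ0 κ1, lt_min h3 g3, fun i hi n K A a1 a2 a3 a4 a5 => ?_⟩
    rcases Nat.lt_or_ge i (j + 1) with hi' | hi'
    · exact ccw_mono (min_le_left _ _) le_rfl
        (h4 i (Nat.lt_succ_iff.1 hi') n K A a1 a2 a3 a4 (ccw_mono le_rfl (min_le_left _ _) a5))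
    · obtain rfl : i = j + 1 := le_antisymm hi hi'
      exact ccw_mono (min_le_right _ _) le_rfl
        (g4 n K A a1 a2 a3 a4 (ccw_mono le_rfl (min_le_right _ _) a5))

/-- the codimension -/
theorem exists_codim {n m j : ℕ} (T : E n →ₗ[ℝ] E m) (hT : Function.Surjective T)
    (h : n ≤ m + j) : ∃ i, i ≤ j ∧ n = m + i := by
  have h1 := LinearMap.finrank_le_finrank_of_surjective hT
  rw [finrank_euclideanSpace_fin, finrank_euclideanSpace_fin] at h1
  exact ⟨n - m, by omega, by omega⟩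

/-- X3: from a weight to its projections -/
theorem t_WIM (h1 : S_BWC) (h2 : S_BWI) (h3 : S_BWG) : S_WIM := by
  intro j δ hδ
  obtain ⟨δ0, c, hδ0, hc, Himg⟩ := img_all j δ hδ
  obtain ⟨δ', hδ', H⟩ := h1 δ0 hδ0
  refine ⟨δ', hδ', fun κ' hκ' => ?_⟩
  obtain ⟨κ, hκ, Hκ⟩ := H κ' hκ'
  refine ⟨c * κ / 2, by positivity, fun n m T w u hT hnm hw hu hwu hcc => ?_⟩
  refine h2 m (c * κ) δ u (by positivity) hu ?_
  obtain ⟨i, hi, hni⟩ := exists_codim T hT hnm
  filter_upwards [Hκ n w hw hcc, h3 n w hw] with M hM1 hM2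
  obtain ⟨e1⟩ := exists_coord' n M ((m + M) + i) (by omega)
  obtain ⟨e2⟩ := exists_coord' m M (m + M) rfl
  obtain ⟨A, hA, hAi⟩ := proj_coord T hT hwu e1 e2
  obtain ⟨b1, b2, b3⟩ := img_props hM2.1 e1
  refine ⟨m + M, e2, ?_⟩
  rw [← hAi]
  exact Himg i hi (m + M) κ (e1 '' BW w M) A hκ b1 b2 b3 hA (hM1 _ e1)

/-- X4: from a projection to the weight -/
theorem t_WLF (h1 : S_BWC) (h2 : S_BWI) (h3 : S_BWG) (h4 : Pool.Agent.R755.KF.S_LIFT) :
    S_WLF := by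
  intro j δ hδ
  obtain ⟨δ0, hδ0, Hl⟩ := lift_all h4 j δ hδ
  obtain ⟨δ', hδ', H⟩ := h1 δ0 hδ0
  refine ⟨δ', hδ', fun κ' hκ' => ?_⟩
  obtain ⟨κ, hκ, Hκ⟩ := H κ' hκ'
  obtain ⟨κl, hκl, Hκl⟩ := Hl κ hκ
  refine ⟨κl / 2, by positivity, fun n m T w u hT hnm hw hu hwu hcc => ?_⟩
  refine h2 n κl δ w hκl hw ?_
  obtain ⟨i, hi, hni⟩ := exists_codim T hT hnm
  filter_upwards [Hκ m u hu hcc, h3 n w hw] with M hM1 hM2
  obtain ⟨e1⟩ := exists_coord' n M ((m + M) + i) (by omega)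
  obtain ⟨e2⟩ := exists_coord' m M (m + M) rfl
  obtain ⟨A, hA, hAi⟩ := proj_coord T hT hwu e1 e2
  obtain ⟨b1, b2, b3⟩ := img_props hM2.1 e1
  refine ⟨(m + M) + i, e1, Hκl i hi (m + M) (e1 '' BW w M) A hA b1 b2 b3 ?_⟩
  rw [hAi]
  exact hM1 _ e2

end Pool.Agent.N697.KM
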