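import Pool.Agent.N483.KM.StmW

/-!
# Weights and product measures (helper697)
-/

set_option autoImplicit false

namespace Pool.Agent.N697.KM

open MeasureTheory Set Filter Topology
open scoped ENNReal InnerProductSpace
open Pool.Agent.R754.KG (E un sl Rv)
open Pool.Agent.Y506.PV (CcW ind LCn)
open Pool.Agent.Y506.RG (EW VW Adm)
open Pool.Agent.N483.KM

/-- change of variables -/
theorem EW_img {N d n : ℕ} (e : (E N × E d) ≃ₗ[ℝ] E n) (w : E N × E d → ℝ) (F : E n → ℝ) :
    EW (fun x => w (e.symm x)) F = (∫ z, F (e z) * w z) / ∫ z, w z := by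
  let e' : (E N × E d) ≃L[ℝ] E n := e.toContinuousLinearEquiv
  have hme : MeasurableEmbedding e' := e'.toHomeomorph.measurableEmbedding
  have hv0 : (volume : Measure (E N × E d)).IsAddHaarMeasure :=
    inferInstanceAs (Measure.prod (volume : Measure (E N)) (volume : Measure (E d))).IsAddHaarMeasure
  have hh : (Measure.map e' (volume : Measure (E N × E d))).IsAddHaarMeasure :=
    e'.isAddHaarMeasure_map volume
  obtain ⟨c, hc⟩ : ∃ c : NNReal, Measure.map e' (volume : Measure (E N × E d)) =
      c • (volume : Measure (E n)) := ⟨_, Measure.isAddLeftInvariant_eq_smul _ _⟩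
  have hc0 : c ≠ 0 := by
    rintro rfl
    rw [zero_smul] at hc
    have h1 : (Measure.map e' (volume : Measure (E N × E d))) univ ≠ 0 :=
      (isOpen_univ.measure_pos _ univ_nonempty).ne'
    rw [hc] at h1
    exact h1 rfl
  have key : ∀ G : E n → ℝ, ∫ z, G (e z) = (c : ℝ) * ∫ x, G x := by
    intro G
    have h1 : ∫ x, G x ∂(Measure.map e' volume) = ∫ z, G (e' z) := hme.integral_map G
    rw [hc] at h1
    have h2 : ∫ x, G x ∂(c • (volume : Measure (E n))) = (c : ℝ) * ∫ x, G x := by
      have h3 : (c • (volume : Measure (E n))) = (c : ℝ≥0∞) • (volume : Measure (E n)) := rfl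
      rw [h3, integral_smul_measure]
      simp
    rw [h2] at h1
    exact h1.symm
  unfold EW
  have h1 := key (fun x => F x * w (e.symm x))
  have h2 := key (fun x => w (e.symm x))
  simp only [LinearEquiv.symm_apply_apply] at h1 h2
  rw [h1, h2, mul_div_mul_left _ _ (by exact_mod_cast hc0)]

/-- the indicator function of the image of a body -/
theorem ind_img {N d n : ℕ} (e : (E N × E d) ≃ₗ[ℝ] E n) (B : Set (E N × E d)) :
    ind (e '' B) = fun x => B.indicator (fun _ => (1 : ℝ)) (e.symm x) := by
  funext x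
  unfold ind
  by_cases h : e.symm x ∈ B
  · have h2 : x ∈ e '' B := ⟨_, h, e.apply_symm_apply x⟩
    rw [indicator_of_mem h, indicator_of_mem h2]
  · have h2 : x ∉ e '' B := by
      rintro ⟨z, hz, rfl⟩
      rw [e.symm_apply_apply] at h
      exact h hz
    rw [indicator_of_notMem h, indicator_of_notMem h2]

theorem EW_ind_img {N d n : ℕ} (e : (E N × E d) ≃ₗ[ℝ] E n) {B : Set (E N × E d)}
    (hB : MeasurableSet B) (F : E n → ℝ) :
    EW (ind (e '' B)) F = (∫ z in B, F (e z)) / ∫ _z in B, (1 : ℝ) := by
  rw [ind_img, EW_img, ← integral_indicator hB, ← integral_indicator hB]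
  congr 1
  refine integral_congr_ae (Eventually.of_forall fun z => ?_)
  simp only
  by_cases h : z ∈ B
  · rw [indicator_of_mem h, indicator_of_mem h, mul_one]
  · rw [indicator_of_notMem h, indicator_of_notMem h, mul_zero]

/-- the probability measure with density proportional to `w` -/
noncomputable def pm {n : ℕ} (w : E n → ℝ) : Measure (E n) :=
  (ENNReal.ofReal (∫ x, w x))⁻¹ • volume.withDensity fun x => ((Real.toNNReal (w x) : NNReal) : ℝ≥0∞)

theorem pm_prob {n : ℕ} {w : E n → ℝ} (h : Adm w) : IsProbabilityMeasure (pm w) := by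
  refine ⟨?_⟩
  unfold pm
  rw [Measure.smul_apply, withDensity_apply _ MeasurableSet.univ, Measure.restrict_univ, smul_eq_mul]
  have h1 := ofReal_integral_eq_lintegral_ofReal h.one (Eventually.of_forall h.nonneg)
  have h2 : ∫⁻ x, ((Real.toNNReal (w x) : NNReal) : ℝ≥0∞) = ENNReal.ofReal (∫ x, w x) := h1.symm
  rw [h2]
  exact ENNReal.inv_mul_cancel (ENNReal.ofReal_pos.2 h.pos).ne' ENNReal.ofReal_ne_top

theorem pm_int {n : ℕ} {w : E n → ℝ} (h : Adm w) (f : E n → ℝ) : ∫ x, f x ∂(pm w) = EW w f := by
  unfold pm EW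
  rw [integral_smul_measure, integral_withDensity_eq_integral_smul h.meas.real_toNNReal,
    ENNReal.toReal_inv, ENNReal.toReal_ofReal h.pos.le, smul_eq_mul, inv_mul_eq_div]
  congr 1
  refine integral_congr_ae (Eventually.of_forall fun x => ?_)
  simp only
  rw [NNReal.smul_def, Real.coe_toNNReal _ (h.nonneg x), smul_eq_mul, mul_comm]

theorem pm_integrable {n : ℕ} {w : E n → ℝ} (h : Adm w) {f : E n → ℝ}
    (hf : Integrable fun x => f x * w x) : Integrable f (pm w) := by
  unfold pm
  refine Integrable.smul_measure ?_ (ENNReal.inv_ne_top.2 (ENNReal.ofReal_pos.2 h.pos).ne')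
  rw [integrable_withDensity_iff_integrable_smul h.meas.real_toNNReal]
  refine hf.congr (Eventually.of_forall fun x => ?_)
  simp only
  rw [NNReal.smul_def, Real.coe_toNNReal _ (h.nonneg x), smul_eq_mul, mul_comm]

/-! ### the cube -/

theorem qb_eq (M : ℕ) : qb M = (fun y : E M => (WithLp.ofLp y : Fin M → ℝ)) ⁻¹'
    (Icc (fun _ => -(1 / 2)) (fun _ => 1 / 2)) := by
  ext y
  simp only [qb, mem_ofPred_eq, mem_preimage, mem_Icc, Pi.le_def]
  constructor
  · intro h
    exact ⟨fun i => (abs_le.1 (h i)).1, fun i => (abs_le.1 (h i)).2⟩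
  · intro h i
    exact abs_le.2 ⟨h.1 i, h.2 i⟩

theorem qb_vol (M : ℕ) : volume (qb M) = 1 := by
  rw [qb_eq]
  have h1 := (PiLp.volume_preserving_ofLp (Fin M)).measure_preimage
    (s := Icc (fun _ => -(1 / 2)) (fun _ => 1 / 2)) measurableSet_Icc.nullMeasurableSet
  have h2 : volume (Icc (fun _ : Fin M => -(1 / 2 : ℝ)) (fun _ => 1 / 2)) = 1 := by
    rw [Real.volume_Icc_pi]
    have h3 : ENNReal.ofReal ((1 / 2 : ℝ) - -(1 / 2)) = 1 := by
      norm_num
    rw [Finset.prod_congr rfl fun i _ => h3, Finset.prod_const_one]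
  rw [h2] at h1
  exact h1

theorem qb_closed (M : ℕ) : IsClosed (qb M) := by
  rw [qb_eq]
  exact isClosed_Icc.preimage (PiLp.continuous_ofLp 2 _)

theorem qb_meas (M : ℕ) : MeasurableSet (qb M) := (qb_closed M).measurableSet

theorem qb_norm {M : ℕ} {y : E M} (hy : y ∈ qb M) : ‖y‖ ≤ Real.sqrt M := by
  rw [EuclideanSpace.norm_eq]
  refine Real.sqrt_le_sqrt ?_
  calc ∑ i, ‖y i‖ ^ 2 ≤ ∑ _i : Fin M, (1 : ℝ) := by
        refine Finset.sum_le_sum fun i _ => ?_
        have h1 : ‖y i‖ ≤ 1 / 2 := hy i
        have h2 := norm_nonneg (y i)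
        nlinarith
    _ = M := by simp

theorem qb_compact (M : ℕ) : IsCompact (qb M) := by
  refine Metric.isCompact_of_isClosed_isBounded (qb_closed M) ?_
  refine (Metric.isBounded_closedBall (x := (0 : E M)) (r := Real.sqrt M)).subset fun y hy => ?_
  rw [mem_closedBall_zero_iff]
  exact qb_norm hy

theorem qb_prob (M : ℕ) : IsProbabilityMeasure (volume.restrict (qb M)) := by
  refine ⟨?_⟩
  rw [Measure.restrict_apply_univ, qb_vol]

theorem qb_int {M : ℕ} {f : E M → ℝ} (hf : Continuous f) : Integrable f (volume.restrict (qb M)) :=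
  hf.continuousOn.integrableOn_compact (qb_compact M)

theorem qb_adm (M : ℕ) : Adm (ind (qb M)) where
  nonneg x := by
    unfold ind
    exact indicator_nonneg (fun _ _ => zero_le_one) x
  int := by
    have h1 : (fun x : E M => (1 + ‖x‖ ^ 2) * ind (qb M) x) =
        (qb M).indicator fun x => 1 + ‖x‖ ^ 2 := by
      funext x
      unfold ind
      by_cases h : x ∈ qb M
      · rw [indicator_of_mem h, indicator_of_mem h, mul_one]
      · rw [indicator_of_notMem h, indicator_of_notMem h, mul_zero]
    rw [h1, integrable_indicator_iff (qb_meas M)]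
    exact (by fun_prop : Continuous fun x : E M => 1 + ‖x‖ ^ 2).continuousOn.integrableOn_compact
      (qb_compact M)
  pos := by
    unfold ind
    rw [integral_indicator (qb_meas M)]
    simp [Measure.real, qb_vol]
  meas := measurable_const.indicator (qb_meas M)

/-- odd functions -/
theorem qb_odd {M : ℕ} {f : E M → ℝ} (hf : ∀ x, f (-x) = -f x) : ∫ x in qb M, f x = 0 := by
  rw [← integral_indicator (qb_meas M)]
  have h1 := integral_neg_eq_self ((qb M).indicator f) (volume : Measure (E M))
  have h2 : (fun x => (qb M).indicator f (-x)) = fun x => -(qb M).indicator f x := by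
    funext x
    by_cases h : x ∈ qb M
    · have h3 : -x ∈ qb M := fun i => by
        have := h i
        simpa using this
      rw [indicator_of_mem h, indicator_of_mem h3, hf]
    · have h3 : -x ∉ qb M := fun h4 => h fun i => by
        have := h4 i
        simpa using this
      rw [indicator_of_notMem h, indicator_of_notMem h3, neg_zero]
  rw [h2, integral_neg] at h1
  linarith

/-! ### the product -/

theorem prod_int {n M : ℕ} {w : E n → ℝ} (h : Adm w) (F : E n × E M → ℝ) :
    ∫ z, F z ∂((pm w).prod (volume.restrict (qb M))) =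
      (∫ z : E n × E M, F z * (w z.1 * ind (qb M) z.2)) /
        ∫ z : E n × E M, w z.1 * ind (qb M) z.2 := by
  have hden : ∫ z : E n × E M, w z.1 * ind (qb M) z.2 = ∫ x, w x := by
    have h1 := integral_prod_mul (μ := (volume : Measure (E n))) (ν := (volume : Measure (E M)))
      w (ind (qb M))
    rw [Measure.volume_eq_prod, h1]
    have h2 : ∫ y, ind (qb M) y = 1 := by
      unfold ind
      rw [integral_indicator (qb_meas M)]
      simp [Measure.real, qb_vol]
    rw [h2, mul_one]
  have hw : Measurable fun x => ((Real.toNNReal (w x) : NNReal) : ℝ≥0∞) :=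
    h.meas.real_toNNReal.coe_nnreal_ennreal
  have hm : (pm w).prod (volume.restrict (qb M)) = (ENNReal.ofReal (∫ x, w x))⁻¹ •
      (((volume : Measure (E n × E M)).restrict (univ ×ˢ qb M)).withDensity fun z =>
        ((Real.toNNReal (w z.1) : NNReal) : ℝ≥0∞)) := by
    unfold pm
    rw [Measure.prod_smul_left, prod_withDensity_left hw]
    congr 2
    rw [Measure.volume_eq_prod, ← Measure.prod_restrict, Measure.restrict_univ]
  have hm1 : Measurable fun z : E n × E M => Real.toNNReal (w z.1) :=
    h.meas.real_toNNReal.comp measurable_fst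
  rw [hm, integral_smul_measure, integral_withDensity_eq_integral_smul hm1, ENNReal.toReal_inv,
    ENNReal.toReal_ofReal h.pos.le, smul_eq_mul, inv_mul_eq_div, hden,
    ← integral_indicator (MeasurableSet.univ.prod (qb_meas M))]
  congr 1
  refine integral_congr_ae (Eventually.of_forall fun z => ?_)
  simp only
  unfold ind
  by_cases hz : z.2 ∈ qb M
  · rw [indicator_of_mem (show z ∈ univ ×ˢ qb M from ⟨mem_univ _, hz⟩), indicator_of_mem hz,
      NNReal.smul_def, Real.coe_toNNReal _ (h.nonneg _), smul_eq_mul, mul_one, mul_comm]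
  · rw [indicator_of_notMem (fun h2 => hz h2.2), indicator_of_notMem hz, mul_zero, mul_zero]

end Pool.Agent.N697.KM
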