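import Pool.Agent.N697.KM.W0

/-!
# Variances on product spaces (helper697)
-/

set_option autoImplicit false
set_option linter.unusedSectionVars false

namespace Pool.Agent.N697.KM

open MeasureTheory Set Filter Topology
open scoped ENNReal InnerProductSpace
open Pool.Agent.R754.KG (E)

section

variable {X Y : Type} [MeasurableSpace X] [MeasurableSpace Y] {ρ : Measure X}
  [IsProbabilityMeasure ρ] {ν : Measure Y} [IsProbabilityMeasure ν]

theorem iter_mean (a h : X → ℝ) {b : Y → ℝ} (hb : Integrable b ν) (hb0 : ∫ y, b y ∂ν = 0) :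
    ∫ x, (∫ y, (a x + h x * b y) ∂ν) ∂ρ = ∫ x, a x ∂ρ := by
  refine integral_congr_ae (Eventually.of_forall fun x => ?_)
  simp only
  rw [integral_add (integrable_const _) (hb.const_mul _), integral_const_mul, hb0, mul_zero,
    add_zero]
  simp

theorem iter_sq {a h : X → ℝ} {b : Y → ℝ} (ha : Integrable (fun x => a x ^ 2) ρ)
    (hh : Integrable (fun x => h x ^ 2) ρ) (hb : Integrable b ν)
    (hb2 : Integrable (fun y => b y ^ 2) ν) (hb0 : ∫ y, b y ∂ν = 0) :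
    ∫ x, (∫ y, (a x + h x * b y) ^ 2 ∂ν) ∂ρ =
      ∫ x, a x ^ 2 ∂ρ + (∫ x, h x ^ 2 ∂ρ) * ∫ y, b y ^ 2 ∂ν := by
  have h1 : ∀ x, ∫ y, (a x + h x * b y) ^ 2 ∂ν = a x ^ 2 + h x ^ 2 * ∫ y, b y ^ 2 ∂ν := by
    intro x
    have e1 : ∀ y, (a x + h x * b y) ^ 2 = a x ^ 2 + (2 * a x * h x * b y + h x ^ 2 * b y ^ 2) :=
      fun y => by ring
    have i1 : Integrable (fun y => 2 * a x * h x * b y) ν := hb.const_mul _
    have i2 : Integrable (fun y => h x ^ 2 * b y ^ 2) ν := hb2.const_mul _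
    have i3 : Integrable (fun y => 2 * a x * h x * b y + h x ^ 2 * b y ^ 2) ν := i1.add i2
    rw [integral_congr_ae (Eventually.of_forall e1), integral_add (integrable_const _) i3,
      integral_add i1 i2, integral_const_mul, integral_const_mul, hb0, mul_zero, zero_add]
    simp
  rw [integral_congr_ae (Eventually.of_forall h1), integral_add ha (hh.mul_const _),
    integral_mul_const]

theorem sq_le {a : X → ℝ} (ha : Integrable a ρ) (ha2 : Integrable (fun x => a x ^ 2) ρ) :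
    (∫ x, a x ∂ρ) ^ 2 ≤ ∫ x, a x ^ 2 ∂ρ := by
  set m := ∫ x, a x ∂ρ with hm
  have h1 : 0 ≤ ∫ x, (a x - m) ^ 2 ∂ρ := integral_nonneg fun x => sq_nonneg _
  have e1 : ∀ x, (a x - m) ^ 2 = a x ^ 2 + (-(2 * m) * a x + m ^ 2) := fun x => by ring
  have i1 : Integrable (fun x => -(2 * m) * a x) ρ := ha.const_mul _
  have i2 : Integrable (fun x => -(2 * m) * a x + m ^ 2) ρ := i1.add (integrable_const _)
  rw [integral_congr_ae (Eventually.of_forall e1), integral_add ha2 i2,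
    integral_add i1 (integrable_const _), integral_const_mul, ← hm] at h1
  simp only [integral_const, probReal_univ, one_smul] at h1
  nlinarith

/-- comparison of the variances of bounded functions -/
theorem var_cmp {f g : X → ℝ} (hf : Integrable f ρ) (hg : Integrable g ρ)
    (hf2 : Integrable (fun x => f x ^ 2) ρ) (hg2 : Integrable (fun x => g x ^ 2) ρ)
    (h1f : ∀ x, |f x| ≤ 1) (h1g : ∀ x, |g x| ≤ 1) {D : X → ℝ} (hD : Integrable D ρ)
    (hfg : ∀ x, |f x - g x| ≤ D x) :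
    (∫ x, f x ^ 2 ∂ρ) - (∫ x, f x ∂ρ) ^ 2 ≤
      (∫ x, g x ^ 2 ∂ρ) - (∫ x, g x ∂ρ) ^ 2 + 4 * ∫ x, D x ∂ρ := by
  have e1 : |∫ x, f x ∂ρ - ∫ x, g x ∂ρ| ≤ ∫ x, D x ∂ρ := by
    rw [← integral_sub hf hg]
    exact (abs_integral_le_integral_abs).trans (integral_mono (hf.sub hg).abs hD hfg)
  have e2 : (∫ x, f x ^ 2 ∂ρ) - ∫ x, g x ^ 2 ∂ρ ≤ 2 * ∫ x, D x ∂ρ := by
    rw [← integral_sub hf2 hg2, ← integral_const_mul]
    refine integral_mono (hf2.sub hg2) (hD.const_mul _) fun x => ?_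
    have a1 := abs_le.1 (h1f x)
    have a2 := abs_le.1 (h1g x)
    have a3 : f x ^ 2 - g x ^ 2 = (f x - g x) * (f x + g x) := by ring
    have a4 : |f x + g x| ≤ 2 := by
      rw [abs_le]
      constructor <;> linarith
    calc f x ^ 2 - g x ^ 2 ≤ |f x ^ 2 - g x ^ 2| := le_abs_self _
      _ = |f x - g x| * |f x + g x| := by rw [a3, abs_mul]
      _ ≤ D x * 2 := mul_le_mul (hfg x) a4 (abs_nonneg _) ((abs_nonneg _).trans (hfg x))
      _ = 2 * D x := by ring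
  have bd : ∀ {u : X → ℝ}, Integrable u ρ → (∀ x, |u x| ≤ 1) → |∫ x, u x ∂ρ| ≤ 1 := by
    intro u hu h
    have := norm_integral_le_of_norm_le_const (μ := ρ) (f := u) (C := 1)
      (Eventually.of_forall h)
    simpa using this
  have b1 := abs_le.1 (bd hf h1f)
  have b2 := abs_le.1 (bd hg h1g)
  have e3 : (∫ x, g x ∂ρ) ^ 2 - (∫ x, f x ∂ρ) ^ 2 ≤ 2 * ∫ x, D x ∂ρ := by
    have a3 : (∫ x, g x ∂ρ) ^ 2 - (∫ x, f x ∂ρ) ^ 2 =
      -(∫ x, f x ∂ρ - ∫ x, g x ∂ρ) * (∫ x, f x ∂ρ + ∫ x, g x ∂ρ) := by ring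
    have a4 : |∫ x, f x ∂ρ + ∫ x, g x ∂ρ| ≤ 2 := by
      rw [abs_le]
      constructor <;> linarith
    calc (∫ x, g x ∂ρ) ^ 2 - (∫ x, f x ∂ρ) ^ 2 ≤ |(∫ x, g x ∂ρ) ^ 2 - (∫ x, f x ∂ρ) ^ 2| :=
          le_abs_self _
      _ = |∫ x, f x ∂ρ - ∫ x, g x ∂ρ| * |∫ x, f x ∂ρ + ∫ x, g x ∂ρ| := by
          rw [a3, abs_mul, abs_neg]
      _ ≤ (∫ x, D x ∂ρ) * 2 := mul_le_mul e1 a4 (abs_nonneg _) ((abs_nonneg _).trans e1)
      _ = _ := by ring
  linarith

/-- the mean of a product of independent random variables -/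
theorem prod_bound {h : X → ℝ} {b : Y → ℝ} (hh : Integrable (fun x => h x ^ 2) ρ)
    (hb : Integrable (fun y => b y ^ 2) ν) {t : ℝ} (ht : 0 < t) :
    Integrable (fun z : X × Y => (t * h z.1 ^ 2 + t⁻¹ * b z.2 ^ 2) / 2) (ρ.prod ν) ∧
    ∫ z : X × Y, (t * h z.1 ^ 2 + t⁻¹ * b z.2 ^ 2) / 2 ∂(ρ.prod ν) =
      (t * ∫ x, h x ^ 2 ∂ρ + t⁻¹ * ∫ y, b y ^ 2 ∂ν) / 2 := by
  have i1 : Integrable (fun z : X × Y => t * h z.1 ^ 2) (ρ.prod ν) :=
    (hh.comp_fst ν).const_mul t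
  have i2 : Integrable (fun z : X × Y => t⁻¹ * b z.2 ^ 2) (ρ.prod ν) :=
    (hb.comp_snd ρ).const_mul t⁻¹
  refine ⟨(i1.add i2).div_const 2, ?_⟩
  rw [integral_div, integral_add i1 i2, integral_const_mul, integral_const_mul]
  congr 2
  · congr 1
    have := integral_fun_fst (μ := ρ) (ν := ν) (fun x => h x ^ 2)
    simpa using this
  · congr 1
    have := integral_fun_snd (μ := ρ) (ν := ν) (fun y => b y ^ 2)
    simpa using this

end

/-- the norm of a vector is bounded by the variances of its coordinates -/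
theorem norm_sq_int {k : ℕ} {Y : Type} [MeasurableSpace Y] {ν : Measure Y} {B : Y → E k} {c : ℝ}
    (hB : ∀ θ : E k, Integrable (fun y => ⟪B y, θ⟫_ℝ ^ 2) ν)
    (hc : ∀ θ : E k, ‖θ‖ = 1 → ∫ y, ⟪B y, θ⟫_ℝ ^ 2 ∂ν ≤ c) :
    Integrable (fun y => ‖B y‖ ^ 2) ν ∧ ∫ y, ‖B y‖ ^ 2 ∂ν ≤ k * c := by
  have h1 : ∀ y, ‖B y‖ ^ 2 = ∑ i, ⟪B y, EuclideanSpace.single i (1 : ℝ)⟫_ℝ ^ 2 := by
    intro y
    rw [EuclideanSpace.norm_sq_eq]
    refine Finset.sum_congr rfl fun i _ => ?_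
    rw [EuclideanSpace.inner_single_right]
    simp
  simp only [h1]
  refine ⟨integrable_finsetSum _ fun i _ => hB _, ?_⟩
  rw [integral_finsetSum _ fun i _ => hB _]
  calc ∑ i : Fin k, ∫ y, ⟪B y, EuclideanSpace.single i (1 : ℝ)⟫_ℝ ^ 2 ∂ν ≤ ∑ _i : Fin k, c :=
        Finset.sum_le_sum fun i _ => hc _ (by simp)
    _ = k * c := by simp

end Pool.Agent.N697.KM
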