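import Pool.Agent.N697.KM.W1

/-!
# From the product weight to the body (helper697)
-/

set_option autoImplicit false

namespace Pool.Agent.N697.KM

open MeasureTheory Set Filter Topology
open scoped ENNReal InnerProductSpace
open Pool.Agent.R754.KG (E un sl Rv)
open Pool.Agent.Y506.PV (CcW ind LCn)
open Pool.Agent.Y506.RG (EW VW Adm)
open Pool.Agent.N483.KM

theorem step {n M m : ℕ} (g : E n → ℝ) (hgm : Measurable g) (hA : Adm (fun x => g x ^ M))
    (B : Set (E n × E M)) (hB : MeasurableSet B)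
    (hBF : ∀ F : E n × E M → ℝ, Continuous F →
      ∫ z in B, F z = ∫ x, (∫ u in qb M, F (x, g x • u)) * g x ^ M)
    (hgi : Integrable fun x => (g x - 1) ^ 2 * g x ^ M) (e : (E n × E M) ≃ₗ[ℝ] E m)
    {κ δ' η c : ℝ} (hκ : 0 < κ)
    (hP : CcW (2 * κ) δ' (fun z => (fun x => g x ^ M) (e.symm z).1 * ind (qb M) (e.symm z).2))
    (hc : 0 < c) (hη : ((n + M : ℕ) : ℝ) * EW (fun x => g x ^ M) (fun x => (g x - 1) ^ 2) ≤ η)
    (hη4 : η ≤ 1 / 4) (hnM : 0 < n + M) :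
    CcW κ (δ' + 2 * κ * (c * η + 4 / c)) (ind (e '' B)) := by
  set W : E n → ℝ := fun x => g x ^ M with hW
  have hρ : IsProbabilityMeasure (pm W) := pm_prob hA
  have hν : IsProbabilityMeasure (volume.restrict (qb M) : Measure (E M)) := qb_prob M
  set ρ := pm W with hρd
  set ν : Measure (E M) := volume.restrict (qb M) with hνd
  have hnM1 : (1 : ℝ) ≤ ((n + M : ℕ) : ℝ) := by exact_mod_cast hnM
  -- expectations
  have E1 : ∀ F : E m → ℝ, Continuous F →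
      EW (ind (e '' B)) F = ∫ x, (∫ u, F (e (x, g x • u)) ∂ν) ∂ρ := by
    intro F hF
    have hec : Continuous e := e.toLinearMap.continuous_of_finiteDimensional
    rw [EW_ind_img e hB, hBF (fun z => F (e z)) (hF.comp hec),
      hBF (fun _ => (1 : ℝ)) continuous_const, hρd, pm_int hA]
    unfold EW
    congr 1
    have h1 : ∫ _u, (1 : ℝ) ∂ν = 1 := by simp
    simp only [h1, one_mul]
    rfl
  have E2 : ∀ F : E m → ℝ, EW (fun z => W (e.symm z).1 * ind (qb M) (e.symm z).2) F =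
      ∫ z, F (e z) ∂(ρ.prod ν) := by
    intro F
    rw [EW_img e (fun z => W z.1 * ind (qb M) z.2) F, hρd, hνd, prod_int hA]
  intro k hk T s hs hvar v hv hv1 hvl
  have hTc : Continuous T := T.continuous_of_finiteDimensional
  have hec : Continuous e := e.toLinearMap.continuous_of_finiteDimensional
  set T1 : E n →ₗ[ℝ] E k := T ∘ₗ e.toLinearMap ∘ₗ LinearMap.inl ℝ (E n) (E M) with hT1
  set T2 : E M →ₗ[ℝ] E k := T ∘ₗ e.toLinearMap ∘ₗ LinearMap.inr ℝ (E n) (E M) with hT2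
  have hT : ∀ x y, T (e (x, y)) = T1 x + T2 y := by
    intro x y
    have h1 : (x, y) = (x, (0 : E M)) + ((0 : E n), y) := by simp
    rw [h1, map_add, map_add]
    rfl
  have hT1c : Continuous T1 := T1.continuous_of_finiteDimensional
  have hT2c : Continuous T2 := T2.continuous_of_finiteDimensional
  -- integrability
  have ia2 : ∀ θ : E k, Integrable (fun x => ⟪T1 x, θ⟫_ℝ ^ 2) ρ := by
    intro θ
    set T1' : E n →L[ℝ] E k := LinearMap.toContinuousLinearMap T1 with hT1'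
    have hm : Measurable fun x => ⟪T1 x, θ⟫_ℝ ^ 2 :=
      ((hT1c.inner continuous_const).pow 2).measurable
    refine pm_integrable hA (hA.of_bd _ hm ((‖T1'‖ * ‖θ‖) ^ 2) fun x => ?_)
    have h1 : |⟪T1 x, θ⟫_ℝ| ≤ ‖T1'‖ * ‖θ‖ * ‖x‖ := by
      calc |⟪T1 x, θ⟫_ℝ| ≤ ‖T1 x‖ * ‖θ‖ := abs_real_inner_le_norm _ _
        _ ≤ (‖T1'‖ * ‖x‖) * ‖θ‖ :=
            mul_le_mul_of_nonneg_right (T1'.le_opNorm x) (norm_nonneg _)
        _ = _ := by ring
    rw [abs_of_nonneg (sq_nonneg _), ← sq_abs]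
    calc |⟪T1 x, θ⟫_ℝ| ^ 2 ≤ (‖T1'‖ * ‖θ‖ * ‖x‖) ^ 2 := pow_le_pow_left₀ (abs_nonneg _) h1 2
      _ = (‖T1'‖ * ‖θ‖) ^ 2 * ‖x‖ ^ 2 := by ring
      _ ≤ (‖T1'‖ * ‖θ‖) ^ 2 * (1 + ‖x‖ ^ 2) :=
          mul_le_mul_of_nonneg_left (by linarith) (sq_nonneg _)
  have ia : ∀ θ : E k, Integrable (fun x => ⟪T1 x, θ⟫_ℝ) ρ := by
    intro θ
    refine ((integrable_const (1 : ℝ)).add (ia2 θ)).mono'
      (hT1c.inner continuous_const).aestronglyMeasurable (Eventually.of_forall fun x => ?_)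
    simp only [Pi.add_apply, Real.norm_eq_abs]
    rw [← sq_abs ⟪T1 x, θ⟫_ℝ]
    nlinarith [sq_nonneg (|⟪T1 x, θ⟫_ℝ| - 1)]
  have ib : ∀ θ : E k, Integrable (fun u => ⟪T2 u, θ⟫_ℝ) ν := fun θ =>
    qb_int (hT2c.inner continuous_const)
  have ib2 : ∀ θ : E k, Integrable (fun u => ⟪T2 u, θ⟫_ℝ ^ 2) ν := fun θ =>
    qb_int ((hT2c.inner continuous_const).pow 2)
  have hb0 : ∀ θ : E k, ∫ u, ⟪T2 u, θ⟫_ℝ ∂ν = 0 := fun θ =>
    qb_odd fun u => by rw [map_neg, inner_neg_left]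
  have ig1 : Integrable (fun x => (g x - 1) ^ 2) ρ := pm_integrable hA hgi
  have ig2 : Integrable (fun x => g x ^ 2) ρ := by
    refine ((integrable_const (2 : ℝ)).add (ig1.const_mul 2)).mono'
      (hgm.pow_const 2).aestronglyMeasurable (Eventually.of_forall fun x => ?_)
    simp only [Pi.add_apply, Real.norm_eq_abs]
    rw [abs_of_nonneg (sq_nonneg _)]
    nlinarith [sq_nonneg (g x - 2)]
  set G : ℝ := ∫ x, (g x - 1) ^ 2 ∂ρ with hG
  have hGe : G = EW W fun x => (g x - 1) ^ 2 := pm_int hA _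
  have hG0 : 0 ≤ G := integral_nonneg fun x => sq_nonneg _
  have hGη : ((n + M : ℕ) : ℝ) * G ≤ η := by rw [hGe]; exact hη
  have hG4 : G ≤ 1 / 4 := by nlinarith
  have hg4 : 1 / 4 ≤ ∫ x, g x ^ 2 ∂ρ := by
    have h1 : ∫ x, (1 / 2 - (g x - 1) ^ 2) ∂ρ ≤ ∫ x, g x ^ 2 ∂ρ := by
      refine integral_mono ((integrable_const _).sub ig1) ig2 fun x => ?_
      simp only
      nlinarith [sq_nonneg (2 * g x - 1)]
    rw [integral_sub (integrable_const _) ig1] at h1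
    simp only [integral_const, probReal_univ, one_smul, ← hG] at h1
    linarith
  -- variances of linear functionals
  set q : E k → ℝ := fun θ => ∫ u, ⟪T2 u, θ⟫_ℝ ^ 2 ∂ν with hq
  have hq0 : ∀ θ, 0 ≤ q θ := fun θ => integral_nonneg fun u => sq_nonneg _
  have V1 : ∀ θ : E k, VW (ind (e '' B)) (fun x => ⟪T x, θ⟫_ℝ) =
      ∫ x, ⟪T1 x, θ⟫_ℝ ^ 2 ∂ρ + (∫ x, g x ^ 2 ∂ρ) * q θ - (∫ x, ⟪T1 x, θ⟫_ℝ ∂ρ) ^ 2 := by
    intro θ
    have hlin : ∀ x u, ⟪T (e (x, g x • u)), θ⟫_ℝ = ⟪T1 x, θ⟫_ℝ + g x * ⟪T2 u, θ⟫_ℝ := by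
      intro x u
      rw [hT, map_smul, inner_add_left, real_inner_smul_left]
    have a1 := E1 (fun x => ⟪T x, θ⟫_ℝ ^ 2) ((hTc.inner continuous_const).pow 2)
    have a2 := E1 (fun x => ⟪T x, θ⟫_ℝ) (hTc.inner continuous_const)
    change EW (ind (e '' B)) (fun x => ⟪T x, θ⟫_ℝ ^ 2) -
      EW (ind (e '' B)) (fun x => ⟪T x, θ⟫_ℝ) ^ 2 = _
    rw [a1, a2]
    simp only [hlin]
    rw [iter_sq (ia2 θ) ig2 (ib θ) (ib2 θ) (hb0 θ), iter_mean _ _ (ib θ) (hb0 θ)]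
  have V2 : ∀ θ : E k, VW (fun z => W (e.symm z).1 * ind (qb M) (e.symm z).2)
      (fun x => ⟪T x, θ⟫_ℝ) =
      ∫ x, ⟪T1 x, θ⟫_ℝ ^ 2 ∂ρ + q θ - (∫ x, ⟪T1 x, θ⟫_ℝ ∂ρ) ^ 2 := by
    intro θ
    have hlin : ∀ z : E n × E M, ⟪T (e z), θ⟫_ℝ = ⟪T1 z.1, θ⟫_ℝ + 1 * ⟪T2 z.2, θ⟫_ℝ := by
      intro z
      rw [← Prod.mk.eta (p := z), hT, inner_add_left, one_mul]
    have i1 : Integrable (fun z : E n × E M => ⟪T1 z.1, θ⟫_ℝ + 1 * ⟪T2 z.2, θ⟫_ℝ) (ρ.prod ν) :=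
      ((ia θ).comp_fst ν).add (((ib θ).comp_snd ρ).const_mul 1)
    have i2 : Integrable (fun z : E n × E M => (⟪T1 z.1, θ⟫_ℝ + 1 * ⟪T2 z.2, θ⟫_ℝ) ^ 2)
        (ρ.prod ν) := by
      refine ((((ia2 θ).comp_fst ν).const_mul 2).add (((ib2 θ).comp_snd ρ).const_mul 2)).mono'
        (i1.aestronglyMeasurable.pow 2) (Eventually.of_forall fun z => ?_)
      simp only [Pi.add_apply, Real.norm_eq_abs]
      rw [abs_of_nonneg (sq_nonneg _)]
      nlinarith [sq_nonneg (⟪T1 z.1, θ⟫_ℝ - ⟪T2 z.2, θ⟫_ℝ)]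
    unfold VW
    rw [E2, E2]
    simp only [hlin]
    rw [integral_prod _ i1, integral_prod _ i2]
    simp only
    have h1 := iter_sq (ρ := ρ) (ν := ν) (h := fun _ => (1 : ℝ)) (ia2 θ)
      (by simp) (ib θ) (ib2 θ) (hb0 θ)
    have h2 := iter_mean (ρ := ρ) (ν := ν) (fun x => ⟪T1 x, θ⟫_ℝ) (fun _ => (1 : ℝ)) (ib θ)
      (hb0 θ)
    rw [h1, h2]
    simp
    rfl
  have hva : ∀ θ : E k, (∫ x, ⟪T1 x, θ⟫_ℝ ∂ρ) ^ 2 ≤ ∫ x, ⟪T1 x, θ⟫_ℝ ^ 2 ∂ρ := fun θ =>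
    sq_le (ia θ) (ia2 θ)
  have hqs : ∀ θ : E k, ‖θ‖ = 1 → q θ ≤ 4 * s := by
    intro θ hθ
    have h1 := hvar θ hθ
    rw [V1] at h1
    have h2 := hva θ
    have h3 := hq0 θ
    nlinarith
  have hPs : ∀ θ : E k, ‖θ‖ = 1 → VW (fun z => W (e.symm z).1 * ind (qb M) (e.symm z).2)
      (fun x => ⟪T x, θ⟫_ℝ) ≤ 4 * s := by
    intro θ hθ
    have h1 := hvar θ hθ
    rw [V1] at h1
    rw [V2]
    have h2 := hva θ
    have h3 := hq0 θ
    nlinarith
  have hs4 : Real.sqrt (4 * s) = 2 * Real.sqrt s := by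
    rw [Real.sqrt_mul (by norm_num) s]
    congr 1
    rw [show (4 : ℝ) = 2 ^ 2 by norm_num, Real.sqrt_sq (by norm_num)]
  have hss : 0 < Real.sqrt s := Real.sqrt_pos.2 hs
  have keyP := hP k hk T (4 * s) (by positivity) hPs v hv hv1 (fun y => (hvl y).trans (le_of_eq (by
    rw [hs4]
    field_simp)))
  -- the comparison
  obtain ⟨iN, hN⟩ := norm_sq_int (ν := ν) (B := fun u => T2 u) (c := 4 * s) ib2 hqs
  set t : ℝ := c * Real.sqrt s * ((n + M : ℕ) : ℝ) with ht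
  have ht0 : 0 < t := by positivity
  obtain ⟨iD, hD⟩ := prod_bound (ρ := ρ) (ν := ν) (h := fun x => g x - 1) (b := fun u => ‖T2 u‖)
    ig1 iN ht0
  set l : ℝ := κ / Real.sqrt s with hl
  have hl0 : 0 < l := by positivity
  have hlip : ∀ y y' : E k, |v y - v y'| ≤ l * ‖y - y'‖ := by
    intro y y'
    have := Convex.norm_image_sub_le_of_norm_fderiv_le (𝕜 := ℝ) (f := v) (C := l) (s := univ)
      (fun x _ => (hv.differentiable one_ne_zero) x) (fun x _ => hvl x) convex_univ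
      (mem_univ y') (mem_univ y)
    rwa [Real.norm_eq_abs] at this
  have hvm : Measurable v := hv.continuous.measurable
  have hmf : Measurable fun z : E n × E M => v (T (e (z.1, g z.1 • z.2))) :=
    (hv.continuous.comp (hTc.comp hec)).measurable.comp
      (measurable_fst.prodMk ((hgm.comp measurable_fst).smul measurable_snd))
  have hmg : Measurable fun z : E n × E M => v (T (e z)) :=
    (hv.continuous.comp (hTc.comp hec)).measurable
  have bint : ∀ {u : E n × E M → ℝ}, Measurable u → (∀ z, |u z| ≤ 1) →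
      Integrable u (ρ.prod ν) ∧ Integrable (fun z => u z ^ 2) (ρ.prod ν) := by
    intro u hu h
    refine ⟨Integrable.of_bound hu.aestronglyMeasurable 1 (Eventually.of_forall h),
      Integrable.of_bound (hu.pow_const 2).aestronglyMeasurable 1
        (Eventually.of_forall fun z => ?_)⟩
    rw [Real.norm_eq_abs, abs_of_nonneg (sq_nonneg _), ← sq_abs]
    have := h z
    nlinarith [abs_nonneg (u z)]
  obtain ⟨if1, if2⟩ := bint hmf fun z => hv1 _
  obtain ⟨ig1', ig2'⟩ := bint hmg fun z => hv1 _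
  have hcmp := var_cmp (ρ := ρ.prod ν) if1 ig1' if2 ig2' (fun z => hv1 _) (fun z => hv1 _)
    (iD.const_mul l) (fun z => by
      have h1 : T (e (z.1, g z.1 • z.2)) - T (e z) = (g z.1 - 1) • T2 z.2 := by
        rw [← Prod.mk.eta (p := z), hT, hT, map_smul]
        simp only
        module
      refine (hlip _ _).trans (mul_le_mul_of_nonneg_left ?_ hl0.le)
      rw [h1, norm_smul, Real.norm_eq_abs]
      have h2 : 0 < t⁻¹ := by positivity
      have h3 : t * t⁻¹ = 1 := mul_inv_cancel₀ ht0.ne'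
      have h4 : 0 ≤ t⁻¹ * (t * |g z.1 - 1| - ‖T2 z.2‖) ^ 2 := by positivity
      have h5 : t⁻¹ * (t * |g z.1 - 1| - ‖T2 z.2‖) ^ 2 =
        (t * t⁻¹) * t * |g z.1 - 1| ^ 2 - 2 * (t * t⁻¹) * (|g z.1 - 1| * ‖T2 z.2‖) +
          t⁻¹ * ‖T2 z.2‖ ^ 2 := by ring
      rw [h5, h3, sq_abs] at h4
      linarith)
  rw [integral_const_mul, hD] at hcmp
  have hVB : VW (ind (e '' B)) (fun x => v (T x)) =
      (∫ z : E n × E M, v (T (e (z.1, g z.1 • z.2))) ^ 2 ∂(ρ.prod ν)) -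
        (∫ z : E n × E M, v (T (e (z.1, g z.1 • z.2))) ∂(ρ.prod ν)) ^ 2 := by
    have a1 := E1 (fun x => v (T x) ^ 2) ((hv.continuous.comp hTc).pow 2)
    have a2 := E1 (fun x => v (T x)) (hv.continuous.comp hTc)
    change EW (ind (e '' B)) (fun x => v (T x) ^ 2) -
      EW (ind (e '' B)) (fun x => v (T x)) ^ 2 = _
    rw [a1, a2, integral_prod _ if1, integral_prod _ if2]
  have hVP : VW (fun z => W (e.symm z).1 * ind (qb M) (e.symm z).2) (fun x => v (T x)) =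
      (∫ z : E n × E M, v (T (e z)) ^ 2 ∂(ρ.prod ν)) -
        (∫ z : E n × E M, v (T (e z)) ∂(ρ.prod ν)) ^ 2 := by
    unfold VW
    rw [E2, E2]
  rw [hVB]
  rw [hVP] at keyP
  refine hcmp.trans (add_le_add keyP ?_)
  -- the error term
  have hmk : (k : ℝ) ≤ ((n + M : ℕ) : ℝ) := by
    have h1 := e.finrank_eq
    rw [Module.finrank_prod, finrank_euclideanSpace_fin, finrank_euclideanSpace_fin,
      finrank_euclideanSpace_fin] at h1
    exact_mod_cast (by omega : k ≤ n + M)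
  have hN' : ∫ u, ‖T2 u‖ ^ 2 ∂ν ≤ ((n + M : ℕ) : ℝ) * (4 * s) :=
    hN.trans (mul_le_mul_of_nonneg_right hmk (by positivity))
  have hsq : Real.sqrt s * Real.sqrt s = s := Real.mul_self_sqrt hs.le
  have f1 : t * G ≤ c * Real.sqrt s * η := by
    rw [ht]
    calc c * Real.sqrt s * ((n + M : ℕ) : ℝ) * G = c * Real.sqrt s * (((n + M : ℕ) : ℝ) * G) := by
          ring
      _ ≤ _ := mul_le_mul_of_nonneg_left hGη (by positivity)
  have f2 : t⁻¹ * ∫ u, ‖T2 u‖ ^ 2 ∂ν ≤ 4 * Real.sqrt s / c := by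
    calc t⁻¹ * ∫ u, ‖T2 u‖ ^ 2 ∂ν ≤ t⁻¹ * (((n + M : ℕ) : ℝ) * (4 * s)) :=
          mul_le_mul_of_nonneg_left hN' (by positivity)
      _ = 4 * Real.sqrt s / c := by
          rw [ht]
          have h0 : ((n + M : ℕ) : ℝ) ≠ 0 := by positivity
          field_simp
          nlinarith [hsq]
  calc 4 * (l * ((t * G + t⁻¹ * ∫ u, ‖T2 u‖ ^ 2 ∂ν) / 2))
      ≤ 4 * (l * ((c * Real.sqrt s * η + 4 * Real.sqrt s / c) / 2)) := by
        refine mul_le_mul_of_nonneg_left (mul_le_mul_of_nonneg_left ?_ hl0.le) (by norm_num)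
        linarith
    _ = 2 * κ * (c * η + 4 / c) := by
        rw [hl]
        field_simp
        ring

end Pool.Agent.N697.KM
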